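import Pool.Agent.SetPS.Final
import Pool.Agent.SetPS.SetMem

/-!
# The two-player game of SET is PSPACE-complete

The problem of deciding the winner of the two-player game of SET with three values per attribute
is in `PSPACE`, and every problem in `PSPACE` is polynomial-time many-one reducible to it.

The reduction goes through alternating formulas in conjunctive normal form, geography on directed
graphs with out-degree at most two, and a gadget of 37 + 35 cards per vertex found by computer,
whose Grundy values are checked by the kernel.
-/

namespace Pool.Agent.Results.MP_cf31f8_lc.SetPspaceComplete

open Pool.Agent.SetPS

/-- The game of SET is PSPACE-complete under polynomial-time many-one reductions. -/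
theorem result : InPSPACE SET ∧
    ∀ (Γ : Type) [Fintype Γ] (L : Set (List Γ)), InPSPACE L → PolyReduces L SET :=
  ⟨set_mem, set_hard⟩

end Pool.Agent.Results.MP_cf31f8_lc.SetPspaceComplete
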